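import Pool.Agent.Y45.MON.StmG
import Pool.Agent.TH54.BU.Rigid
import Pool.Agent.TH54.BU.Key

/-!
# Project MON (helper45), job G10: torsion and conjugacy in the quotient
-/

set_option autoImplicit false

namespace Pool.Agent.Y919.MON

open Pool.Agent.TH54.BU Pool.Agent.Y45.MON

section

variable {G : Type} [Group G] {H : GH G} {c θ T : ℕ} (L : LS H c θ T)

/-- the basic size -/
def XX {G : Type} [Group G] {H : GH G} {c θ T : ℕ} (_ : LS H c θ T) : ℕ :=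
  (T + 1) * (c + θ + H.D + 1)

theorem XX_pos : 1 ≤ XX L := Nat.mul_pos (by omega) (by omega)

theorem XX_le : 10 ^ 7 * XX L ≤ cstT L := by
  unfold cstT
  have h1 := XX_pos L
  have h2 : (T + 1) * (c + θ + H.D + 1) = XX L := rfl
  rw [h2, pow_two]
  exact Nat.mul_le_mul_left _ (Nat.le_mul_of_pos_left _ h1)

theorem T_le {a K : ℕ} (h : a ≤ K * (c + θ + H.D + 1)) : T * a ≤ K * XX L := by
  unfold XX
  calc T * a ≤ (T + 1) * (K * (c + θ + H.D + 1)) := Nat.mul_le_mul (by omega) h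
    _ = K * ((T + 1) * (c + θ + H.D + 1)) := by ring

theorem thr_le : L.thr ≤ 2 * XX L := T_le L (by omega)

/-- reduction of an exponent -/
theorem red (n : ℕ) (hn : 0 < n) (k : ℤ) : ∃ k' : ℤ, 2 * |k'| ≤ n ∧ (n : ℤ) ∣ k - k' := by
  have hn' : (0 : ℤ) < n := by exact_mod_cast hn
  have h1 := Int.emod_nonneg k hn'.ne'
  have h2 := Int.emod_lt_of_pos k hn'
  have h3 := Int.mul_ediv_add_emod k n
  by_cases h : 2 * (k % n) ≤ n
  · exact ⟨k % n, by rw [abs_of_nonneg h1]; exact h, ⟨k / n, by linarith⟩⟩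
  · push Not at h
    refine ⟨k % n - n, ?_, ⟨k / n + 1, by linarith⟩⟩
    rw [abs_of_nonpos (by linarith)]
    linarith

variable {n : L.ι → ℕ} {M : Subgroup G}

theorem pow_mem (F : Fv L n M) (i : L.ι) {k : ℤ} (h : (n i : ℤ) ∣ k) : L.x i ^ k ∈ M := by
  obtain ⟨q, rfl⟩ := h
  have := F.rot i 1 q
  unfold LS.rt at this
  simpa using this

theorem s_one_pow (i : L.ι) (k : ℤ) : L.s i 1 1 (L.x i ^ k) = k := by
  unfold LS.s
  rw [inv_one, one_mul, one_mul, L.tn_kappa, L.az_kappa_one, sub_zero]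

/-- windows of a power on the other lines -/
theorem s_other (i j : L.ι) (u : G) (h : j = i → u⁻¹ * 1 ∉ Subgroup.zpowers (L.x j)) (a b : ℤ) :
    |L.s j u (L.x i ^ a) (L.x i ^ b)| ≤ ((XX L : ℕ) : ℤ) := by
  have h1 := L.wf_ov (i := j) (j := i) (u := u) (w := 1) h a b
  rw [one_mul, one_mul] at h1
  have h2 := L.rg_s_le j u (L.x i ^ a) (L.x i ^ b)
  have h3 : T * L.D j u (L.x i ^ a) (L.x i ^ b) ≤ 1 * XX L := T_le L (by omega)
  rw [one_mul] at h3
  have h4 : ((T * L.D j u (L.x i ^ a) (L.x i ^ b) : ℕ) : ℤ) ≤ ((XX L : ℕ) : ℤ) := by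
    exact_mod_cast h3
  push_cast at h4
  linarith

/-- windows of a power on its own line -/
theorem s_own (i : L.ι) (u : G) (h : u⁻¹ * 1 ∈ Subgroup.zpowers (L.x i)) (p q : G) :
    L.s i u p q = L.s i 1 p q := by
  obtain ⟨a, ha⟩ := h
  have ha' : L.x i ^ a = u⁻¹ * 1 := ha
  have hu : u = 1 * L.x i ^ (-a) := by
    rw [zpow_neg, ha']
    group
  rw [hu, L.wf_s_base]

end

theorem ord : OrdStmt := by
  intro G _ H c θ T L n M F hn i k hk
  have hX := XX_le L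
  have hX1 := XX_pos L
  have hthr := thr_le L
  obtain ⟨k', h1, h2⟩ := red (n i) (by have := hn i; omega) k
  have hk' : L.x i ^ k' ∈ M := by
    have e : L.x i ^ k' = (L.x i ^ (k - k'))⁻¹ * L.x i ^ k := by
      rw [← zpow_neg, ← zpow_add]
      congr 1
      ring
    rw [e]
    exact M.mul_mem (M.inv_mem (pow_mem L F i h2)) hk
  by_cases h0 : k' = 0
  · rw [h0, sub_zero] at h2
    exact h2
  exfalso
  have hne : L.x i ^ k' ≠ 1 := by
    intro h
    have h3 := L.wf_lin_z i k'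
    rw [h, H.len_one, mul_zero] at h3
    omega
  obtain ⟨j, u, hj⟩ := F.gr _ hk' hne 1
  rw [mul_one] at hj
  have hnj := hn j
  have hnj' : 4 * (cstT L : ℤ) ≤ n j := by exact_mod_cast hnj
  have hX' : (10 ^ 7 : ℤ) * (XX L : ℤ) ≤ cstT L := by exact_mod_cast hX
  have hX1' : (1 : ℤ) ≤ (XX L : ℤ) := by exact_mod_cast hX1
  have hthr' : (L.thr : ℤ) ≤ 2 * (XX L : ℤ) := by exact_mod_cast hthr
  by_cases hc : j = i ∧ u⁻¹ * 1 ∈ Subgroup.zpowers (L.x j)
  · obtain ⟨rfl, hc⟩ := hc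
    rw [s_own L j u hc, s_one_pow] at hj
    linarith
  · have h3 := s_other L i j u (fun h1 h2 => hc ⟨h1, h2⟩) 0 k'
    rw [zpow_zero] at h3
    linarith

theorem conjO (hT : TauStmt) : ConjOStmt := by
  intro G _ H c θ T L n M F hn j l x' y hx hx1 hl h
  have hMn : M.Normal := F.normal
  have hX := XX_le L
  have hX1 := XX_pos L
  have hthr := thr_le L
  have hX' : (10 ^ 7 : ℤ) * (XX L : ℤ) ≤ cstT L := by exact_mod_cast hX
  have hX1' : (1 : ℤ) ≤ (XX L : ℤ) := by exact_mod_cast hX1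
  have hthr' : (L.thr : ℤ) ≤ 2 * (XX L : ℤ) := by exact_mod_cast hthr
  -- short pieces
  have hsh : ∀ (i : L.ι) (u p q : G), H.d p q ≤ 1 → |L.s i u p q| ≤ ((XX L : ℕ) : ℤ) := by
    intro i u p q hpq
    have h1 := L.rg_s_le i u p q
    have h2 := L.az_lip i u p q
    have h3 : T * L.D i u p q ≤ 1 * XX L := T_le L (by omega)
    rw [one_mul] at h3
    have h4 : ((T * L.D i u p q : ℕ) : ℤ) ≤ ((XX L : ℕ) : ℤ) := by exact_mod_cast h3
    push_cast at h4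
    linarith
  obtain ⟨l', h1, h2⟩ := red (n j) (by have := hn j; omega) l
  have hl' : y * L.x j ^ l' * y⁻¹ * x'⁻¹ ∈ M := by
    have e : y * L.x j ^ l' * y⁻¹ * x'⁻¹ =
        (y * (L.x j ^ (l - l'))⁻¹ * y⁻¹) * (y * L.x j ^ l * y⁻¹ * x'⁻¹) := by
      have e1 : L.x j ^ l' = (L.x j ^ (l - l'))⁻¹ * L.x j ^ l := by
        rw [← zpow_neg, ← zpow_add]
        congr 1
        ring
      rw [e1]
      group
    rw [e]
    exact M.mul_mem (hMn.conj_mem _ (M.inv_mem (pow_mem L F j h2)) y) h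
  by_cases h0 : l' = 0
  · -- `x'` lies in `M`
    rw [h0, zpow_zero, mul_one, mul_inv_cancel, one_mul] at hl'
    have hx' : x' ∈ M := by
      have := M.inv_mem hl'
      rwa [inv_inv] at this
    obtain ⟨i, u, hi⟩ := F.gr _ hx' hx1 1
    rw [mul_one] at hi
    have h3 := hsh i u 1 x' (by rw [H.d_one]; exact hl)
    have hni : 4 * (cstT L : ℤ) ≤ n i := by exact_mod_cast hn i
    linarith
  -- the shortest element
  obtain ⟨y0, ⟨m0, hm0, t0, hy0⟩, hmin⟩ := cl_min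
    (fun z : G => ∃ m ∈ M, ∃ t : ℤ, z = m * y * L.x j ^ t) H.len
    ⟨y, 1, M.one_mem, 0, by group⟩
  have hmin1 : ∀ m ∈ M, ∀ t : ℤ, H.len y0 ≤ H.len (m * y0 * L.x j ^ t) := by
    intro m hm t
    refine hmin _ ⟨m * m0, M.mul_mem hm hm0, t0 + t, ?_⟩
    rw [hy0, zpow_add]
    group
  have htau : y0 * L.x j ^ l' * y0⁻¹ = m0 * (y * L.x j ^ l' * y⁻¹) * m0⁻¹ := by
    rw [hy0]
    have e : L.x j ^ t0 * L.x j ^ l' * (L.x j ^ t0)⁻¹ = L.x j ^ l' := by
      rw [← zpow_neg, ← zpow_add, ← zpow_add]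
      congr 1
      ring
    calc m0 * y * L.x j ^ t0 * L.x j ^ l' * (m0 * y * L.x j ^ t0)⁻¹ =
        m0 * y * (L.x j ^ t0 * L.x j ^ l' * (L.x j ^ t0)⁻¹) * y⁻¹ * m0⁻¹ := by group
      _ = _ := by rw [e]; group
  have hw : y0 * L.x j ^ l' * y0⁻¹ * x'⁻¹ ∈ M := by
    have e : y0 * L.x j ^ l' * y0⁻¹ * x'⁻¹ =
        m0 * (y * L.x j ^ l' * y⁻¹ * x'⁻¹) * (x' * m0⁻¹ * x'⁻¹) := by
      rw [htau]
      group
    rw [e]
    exact M.mul_mem (M.mul_mem hm0 hl') (hMn.conj_mem _ (M.inv_mem hm0) x')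
  have hw1 : y0 * L.x j ^ l' * y0⁻¹ * x'⁻¹ ≠ 1 := by
    intro h3
    have h4 := mul_inv_eq_one.1 h3
    obtain ⟨N, hN, hN1⟩ := hx.exists_pow_eq_one
    rw [← h4, conj_pow] at hN1
    have h5 : (L.x j ^ l') ^ N = 1 := by
      have := congrArg (fun g => y0⁻¹ * g * y0) hN1
      simpa [mul_assoc] using this
    have h6 : L.x j ^ (l' * N) = 1 := by
      rw [zpow_mul, zpow_natCast]
      exact h5
    have h7 := L.wf_lin_z j (l' * N)
    rw [h6, H.len_one, mul_zero] at h7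
    have h8 : l' * N = 0 := Int.natAbs_eq_zero.1 (Nat.le_zero.1 h7)
    rcases mul_eq_zero.1 h8 with h | h
    · exact h0 h
    · have : N = 0 := by exact_mod_cast h
      omega
  obtain ⟨i, u, hi⟩ := F.gr _ hw hw1 x'
  rw [inv_mul_cancel_right] at hi
  have hni : 4 * (cstT L : ℤ) ≤ n i := by exact_mod_cast hn i
  have h3 := hT G H c θ T L n M F (fun i => by have := hn i; omega) j l' y0 h0 h1 hmin1 i u
  have h4 := hsh i u x' 1 (by rw [H.d_one']; exact hl)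
  have h5 := L.wf_s_add i u x' 1 (y0 * L.x j ^ l' * y0⁻¹)
  have h6 := abs_add_le (L.s i u x' 1) (L.s i u 1 (y0 * L.x j ^ l' * y0⁻¹))
  rw [h5] at h6
  linarith

theorem conjN (hT : TauStmt) : ConjNStmt := by
  intro G _ H c θ T L n M F hn i j k l y hk h
  have hMn : M.Normal := F.normal
  have hX := XX_le L
  have hX1 := XX_pos L
  have hthr := thr_le L
  have hX' : (10 ^ 7 : ℤ) * (XX L : ℤ) ≤ cstT L := by exact_mod_cast hX
  have hX1' : (1 : ℤ) ≤ (XX L : ℤ) := by exact_mod_cast hX1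
  have hthr' : (L.thr : ℤ) ≤ 2 * (XX L : ℤ) := by exact_mod_cast hthr
  obtain ⟨k', k1, k2⟩ := red (n i) (by have := hn i; omega) k
  obtain ⟨l', l1, l2⟩ := red (n j) (by have := hn j; omega) l
  have hk0 : k' ≠ 0 := by
    rintro rfl
    rw [sub_zero] at k2
    exact hk k2
  have h' : y * L.x j ^ l' * y⁻¹ * (L.x i ^ k')⁻¹ ∈ M := by
    have e : y * L.x j ^ l' * y⁻¹ * (L.x i ^ k')⁻¹ =
        (y * (L.x j ^ (l - l'))⁻¹ * y⁻¹) * ((y * L.x j ^ l * y⁻¹ * (L.x i ^ k)⁻¹) *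
          L.x i ^ (k - k')) := by
      have e1 : L.x j ^ l' = (L.x j ^ (l - l'))⁻¹ * L.x j ^ l := by
        rw [← zpow_neg, ← zpow_add]
        congr 1
        ring
      have e2 : (L.x i ^ k')⁻¹ = (L.x i ^ k)⁻¹ * L.x i ^ (k - k') := by
        rw [← zpow_neg, ← zpow_neg, ← zpow_add]
        congr 1
        ring
      rw [e1, e2]
      group
    rw [e]
    exact M.mul_mem (hMn.conj_mem _ (M.inv_mem (pow_mem L F j l2)) y)
      (M.mul_mem h (pow_mem L F i k2))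
  have hl0 : l' ≠ 0 := by
    rintro rfl
    rw [zpow_zero, mul_one, mul_inv_cancel, one_mul] at h'
    have h3 : L.x i ^ k' ∈ M := by
      have := M.inv_mem h'
      rwa [inv_inv] at this
    have h4 := ord G H c θ T L n M F hn i k' h3
    exact hk (by
      have := dvd_add k2 h4
      rwa [sub_add_cancel] at this)
  -- the shortest element
  obtain ⟨y0, ⟨m0, hm0, s0, t0, hy0⟩, hmin⟩ := cl_min
    (fun z : G => ∃ m ∈ M, ∃ s t : ℤ, z = L.x i ^ s * m * y * L.x j ^ t) H.len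
    ⟨y, 1, M.one_mem, 0, 0, by group⟩
  have hmin0 : ∀ s t : ℤ, H.len y0 ≤ H.len (L.x i ^ s * y0 * L.x j ^ t) := by
    intro s t
    refine hmin _ ⟨m0, hm0, s + s0, t0 + t, ?_⟩
    rw [hy0, zpow_add, zpow_add]
    group
  have hmin1 : ∀ m ∈ M, ∀ t : ℤ, H.len y0 ≤ H.len (m * y0 * L.x j ^ t) := by
    intro m hm t
    refine hmin _ ⟨((L.x i ^ s0)⁻¹ * m * ((L.x i ^ s0)⁻¹)⁻¹) * m0,
      M.mul_mem (hMn.conj_mem _ hm _) hm0, s0, t0 + t, ?_⟩
    rw [hy0, zpow_add]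
    group
  by_cases hc : i = j ∧ (1 : G)⁻¹ * y0 ∈ Subgroup.zpowers (L.x i)
  · obtain ⟨rfl, a, ha⟩ := hc
    have ha' : L.x i ^ a = 1⁻¹ * y0 := ha
    rw [inv_one, one_mul, hy0] at ha'
    -- `y = m0⁻¹ x ^ b`
    have hy : y = m0⁻¹ * L.x i ^ (-s0 + a + -t0) := by
      rw [zpow_add, zpow_add, ha', zpow_neg, zpow_neg]
      group
    set b := -s0 + a + -t0 with hb
    refine ⟨rfl, ⟨-b, ?_⟩, ?_⟩
    · rw [hy]
      have := hMn.conj_mem _ (M.inv_mem hm0) (L.x i ^ (-b))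
      rw [zpow_neg] at this ⊢
      rwa [inv_inv, mul_assoc] at this
    · have h3 : L.x i ^ (l - k) ∈ M := by
        have e : L.x i ^ (l - k) = (L.x i ^ l * m0⁻¹ * (L.x i ^ l)⁻¹) * m0 *
            (y * L.x i ^ l * y⁻¹ * (L.x i ^ k)⁻¹) := by
          have e1 : y * L.x i ^ l * y⁻¹ = m0⁻¹ * L.x i ^ l * m0 := by
            rw [hy]
            have e2 : L.x i ^ b * L.x i ^ l * (L.x i ^ b)⁻¹ = L.x i ^ l := by
              rw [← zpow_neg, ← zpow_add, ← zpow_add]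
              congr 1
              ring
            calc m0⁻¹ * L.x i ^ b * L.x i ^ l * (m0⁻¹ * L.x i ^ b)⁻¹ =
                m0⁻¹ * (L.x i ^ b * L.x i ^ l * (L.x i ^ b)⁻¹) * m0 := by group
              _ = _ := by rw [e2]
          rw [e1, sub_eq_add_neg, zpow_add, zpow_neg]
          group
        rw [e]
        exact M.mul_mem (M.mul_mem (hMn.conj_mem _ (M.inv_mem hm0) _) hm0) h
      have h4 := ord G H c θ T L n M F hn i (l - k) h3
      have h5 := (dvd_neg (a := ((n i : ℕ) : ℤ)) (b := l - k)).2 h4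
      rwa [neg_sub] at h5
  exfalso
  have hc' : i = j → (1 : G)⁻¹ * y0 ∉ Subgroup.zpowers (L.x i) := fun h1 h2 => hc ⟨h1, h2⟩
  -- the relation for `y0`
  have htau : y0 * L.x j ^ l' * y0⁻¹ =
      L.x i ^ s0 * (m0 * (y * L.x j ^ l' * y⁻¹) * m0⁻¹) * (L.x i ^ s0)⁻¹ := by
    rw [hy0]
    have e : L.x j ^ t0 * L.x j ^ l' * (L.x j ^ t0)⁻¹ = L.x j ^ l' := by
      rw [← zpow_neg, ← zpow_add, ← zpow_add]
      congr 1
      ring
    calc L.x i ^ s0 * m0 * y * L.x j ^ t0 * L.x j ^ l' *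
          (L.x i ^ s0 * m0 * y * L.x j ^ t0)⁻¹ =
        L.x i ^ s0 * (m0 * (y * (L.x j ^ t0 * L.x j ^ l' * (L.x j ^ t0)⁻¹) * y⁻¹) * m0⁻¹) *
          (L.x i ^ s0)⁻¹ := by group
      _ = _ := by rw [e]
  have hw : y0 * L.x j ^ l' * y0⁻¹ * (L.x i ^ k')⁻¹ ∈ M := by
    have e : y0 * L.x j ^ l' * y0⁻¹ * (L.x i ^ k')⁻¹ =
        L.x i ^ s0 * (m0 * (y * L.x j ^ l' * y⁻¹ * (L.x i ^ k')⁻¹) *
          (L.x i ^ k' * m0⁻¹ * (L.x i ^ k')⁻¹)) * (L.x i ^ s0)⁻¹ := by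
      rw [htau]
      have e : (L.x i ^ s0)⁻¹ * (L.x i ^ k')⁻¹ = (L.x i ^ k')⁻¹ * (L.x i ^ s0)⁻¹ := by
        rw [← zpow_neg, ← zpow_neg, ← zpow_add, ← zpow_add, add_comm]
      rw [mul_assoc (L.x i ^ s0 * (m0 * (y * L.x j ^ l' * y⁻¹) * m0⁻¹)), e]
      group
    rw [e]
    exact hMn.conj_mem _ (M.mul_mem (M.mul_mem hm0 h') (hMn.conj_mem _ (M.inv_mem hm0) _)) _
  have hw1 : y0 * L.x j ^ l' * y0⁻¹ * (L.x i ^ k')⁻¹ ≠ 1 := by
    intro h3
    have h4 := mul_inv_eq_one.1 h3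
    apply hk0
    refine L.rg_common (i1 := i) (i2 := j) (P1 := 1) (P2 := y0) hc' (k1 := k') (k2 := l') ?_
    unfold LS.rt
    rw [h4]
    group
  obtain ⟨z, u, hz⟩ := F.gr _ hw hw1 (L.x i ^ k')
  rw [inv_mul_cancel_right] at hz
  have hnz : 4 * (cstT L : ℤ) ≤ n z := by exact_mod_cast hn z
  have h5 := L.wf_s_add z u (L.x i ^ k') 1 (y0 * L.x j ^ l' * y0⁻¹)
  have h6 := abs_add_le (L.s z u (L.x i ^ k') 1) (L.s z u 1 (y0 * L.x j ^ l' * y0⁻¹))
  rw [h5] at h6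
  by_cases hd : z = i ∧ u⁻¹ * 1 ∈ Subgroup.zpowers (L.x z)
  · obtain ⟨rfl, hd⟩ := hd
    rw [s_own L z u hd, s_own L z u hd, s_own L z u hd] at h6
    rw [s_own L z u hd] at hz
    rw [L.wf_s_symm z 1 1 (L.x z ^ k'), s_one_pow, abs_neg] at h6
    -- the window of `tau`
    have d1 : L.D z 1 1 y0 ≤ c := by
      by_contra hcon
      push Not at hcon
      have h7 := L.wf_proj_s z 1 1 y0 hcon
      have h8 : H.len y0 ≤ H.d y0 (L.pr z 1 y0) := by
        rw [H.d_comm]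
        unfold LS.pr GH.d
        rw [one_mul]
        have := hmin0 (-(L.κ z (1⁻¹ * y0))) 0
        rw [zpow_zero, mul_one, zpow_neg] at this
        exact this
      have h9 := H.d_one y0
      omega
    have d2 : L.D z 1 y0 (y0 * L.x j ^ l') ≤ θ := by
      have := L.wf_ov (i := z) (j := j) (u := 1) (w := y0) hc' 0 l'
      rwa [zpow_zero, mul_one] at this
    have d3 : L.D z 1 (y0 * L.x j ^ l') (y0 * L.x j ^ l' * y0⁻¹) ≤ c := by
      by_contra hcon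
      push Not at hcon
      have h7 := L.wf_proj_s z 1 (y0 * L.x j ^ l') (y0 * L.x j ^ l' * y0⁻¹) hcon
      have h8 : H.len y0 ≤ H.d (y0 * L.x j ^ l') (L.pr z 1 (y0 * L.x j ^ l')) := by
        rw [H.d_comm]
        unfold LS.pr GH.d
        rw [one_mul]
        have := hmin0 (-(L.κ z (1⁻¹ * (y0 * L.x j ^ l')))) l'
        rw [zpow_neg, mul_assoc] at this
        exact this
      have h9 : H.d (y0 * L.x j ^ l') (y0 * L.x j ^ l' * y0⁻¹) = H.len y0 := by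
        rw [ky_d, H.len_inv]
      omega
    have d4 := L.wf_D_tri z 1 1 y0 (y0 * L.x j ^ l' * y0⁻¹)
    have d5 := L.wf_D_tri z 1 y0 (y0 * L.x j ^ l') (y0 * L.x j ^ l' * y0⁻¹)
    have d6 := L.rg_s_le z 1 1 (y0 * L.x j ^ l' * y0⁻¹)
    have d7 : T * L.D z 1 1 (y0 * L.x j ^ l' * y0⁻¹) ≤ 2 * XX L := T_le L (by omega)
    have d8 : ((T * L.D z 1 1 (y0 * L.x j ^ l' * y0⁻¹) : ℕ) : ℤ) ≤ ((2 * XX L : ℕ) : ℤ) := by
      exact_mod_cast d7
    push_cast at d8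
    linarith
  · have h3 := hT G H c θ T L n M F (fun i => by have := hn i; omega) j l' y0 hl0 l1 hmin1 z u
    have h4 := s_other L i z u (fun h1 h2 => hd ⟨h1, h2⟩) k' 0
    rw [zpow_zero] at h4
    linarith

theorem conjT : ConjTStmt := by
  intro G _ H c θ T L n M F hn x x' y hx' hx1 hl hl' h
  have hMn : M.Normal := F.normal
  have hX := XX_le L
  have hX1 := XX_pos L
  have hthr := thr_le L
  have hX' : (10 ^ 7 : ℤ) * (XX L : ℤ) ≤ cstT L := by exact_mod_cast hX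
  have hX1' : (1 : ℤ) ≤ (XX L : ℤ) := by exact_mod_cast hX1
  have hthr' : (L.thr : ℤ) ≤ 2 * (XX L : ℤ) := by exact_mod_cast hthr
  obtain ⟨y1, ⟨m0, hm0, hy1⟩, hmin⟩ := cl_min (fun z : G => ∃ m ∈ M, z = m * y) H.len
    ⟨y, 1, M.one_mem, by group⟩
  refine ⟨m0, hm0, ?_⟩
  rw [← hy1]
  have hmin1 : ∀ m ∈ M, H.len y1 ≤ H.len (m * y1) := by
    intro m hm
    refine hmin _ ⟨m * m0, M.mul_mem hm hm0, ?_⟩
    rw [hy1, mul_assoc]
  have hTc : T * (2 * c + 1) ≤ 2 * XX L := T_le L (by omega)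
  have hang : ∀ (i : L.ι) (w : G), 2 * |L.s i w 1 y1| < n i + T * (2 * c + 1) := by
    intro i w
    by_contra hcon
    push Not at hcon
    obtain ⟨k, hk⟩ := L.shorten 0 (n := n i) (i := i) (u := w) (p := 1) (q := y1)
      (by rw [add_zero]; have := hn i; omega) (by
        push_cast
        rw [add_zero]
        exact hcon)
    rw [add_zero, H.d_one, H.d_one] at hk
    have := hmin1 _ (F.rot i w k)
    omega
  have hw : y1 * x * y1⁻¹ * x'⁻¹ ∈ M := by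
    have e : y1 * x * y1⁻¹ * x'⁻¹ = m0 * (y * x * y⁻¹ * x'⁻¹) * (x' * m0⁻¹ * x'⁻¹) := by
      rw [hy1]
      group
    rw [e]
    exact M.mul_mem (M.mul_mem hm0 h) (hMn.conj_mem _ (M.inv_mem hm0) x')
  by_contra hne
  have hw1 : y1 * x * y1⁻¹ * x'⁻¹ ≠ 1 := fun h1 => hne (mul_inv_eq_one.1 h1)
  obtain ⟨i, u, hiu⟩ := F.gr _ hw hw1 (x' * y1)
  have e0 : y1 * x * y1⁻¹ * x'⁻¹ * (x' * y1) = y1 * x := by group
  rw [e0] at hiu
  have hsT : ∀ p q : G, L.D i u p q ≤ 100 * (c + θ + H.D + 1) →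
      |L.s i u p q| ≤ 100 * (XX L : ℤ) := by
    intro p q hpq
    have h1 := L.rg_s_le i u p q
    have h3 : T * L.D i u p q ≤ 100 * XX L := T_le L hpq
    have h4 : ((T * L.D i u p q : ℕ) : ℤ) ≤ ((100 * XX L : ℕ) : ℤ) := by exact_mod_cast h3
    push_cast at h4
    linarith
  have hsh : ∀ p q : G, H.d p q ≤ 1 → |L.s i u p q| ≤ 100 * (XX L : ℤ) := by
    intro p q hpq
    have h2 := L.az_lip i u p q
    exact hsT p q (by omega)
  have s1 := hsh x' 1 (by rw [H.d_one']; exact hl')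
  have s2 := hsh y1 (y1 * x) (by rw [ky_d H]; exact hl)
  have s3 := hang i u
  have s4 : 2 * |L.s i u (x' * y1) x'| < n i + T * (2 * c + 1) := by
    have e1 := L.ky_s_mul i x' u y1 1
    rw [mul_one] at e1
    rw [e1, L.wf_s_symm i _ 1 y1, abs_neg]
    exact hang i _
  have hni : 4 * (cstT L : ℤ) ≤ n i := by exact_mod_cast hn i
  have hTc' : (T : ℤ) * (2 * c + 1) ≤ 2 * (XX L : ℤ) := by exact_mod_cast hTc
  have add1 := L.wf_s_add i u 1 y1 (y1 * x)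
  rcases L.turn hx' hx1 hl' (y := y1) i u with ht | ht
  · have s5 := hsT 1 y1 (by omega)
    have add2 := L.wf_s_add i u (x' * y1) x' 1
    have add3 := L.wf_s_add i u (x' * y1) 1 (y1 * x)
    rw [← add3, ← add2, ← add1] at hiu
    have b1 := abs_add_le (L.s i u (x' * y1) x' + L.s i u x' 1)
      (L.s i u 1 y1 + L.s i u y1 (y1 * x))
    have b2 := abs_add_le (L.s i u (x' * y1) x') (L.s i u x' 1)
    have b3 := abs_add_le (L.s i u 1 y1) (L.s i u y1 (y1 * x))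
    linarith
  · have s5 := hsT 1 (x' * y1) (by omega)
    have add3 := L.wf_s_add i u (x' * y1) 1 (y1 * x)
    rw [← add3, ← add1, L.wf_s_symm i u 1 (x' * y1)] at hiu
    have b1 := abs_add_le (-L.s i u 1 (x' * y1)) (L.s i u 1 y1 + L.s i u y1 (y1 * x))
    have b3 := abs_add_le (L.s i u 1 y1) (L.s i u y1 (y1 * x))
    rw [abs_neg] at b1
    linarith

end Pool.Agent.Y919.MON
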